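import Pool.Agent.X222.PR.CopiesPow

/-!
# Almost all characters, all sets `A`, all unions of affine copies of short patterns

`F` is a family of sets of residues (the patterns); a copy is an affine image `u B₀ + v`, `u ≠ 0`, of
a pattern `B₀ ∈ F`.

(1) Logarithmic scale.  If every pattern has at least `C η^(-C) log p` elements then, outside a set
`Ex` of at most `|F| p^(1+ε) / M` characters (only the trivial one if `M ≥ p^(1/2+ε)`), for EVERY `A`
with `|A| ≥ 2M/η` and all combinations `β = ∑ c_i 1_(P_i)` of copies `P_i`,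
`∑_{a ∈ A} |∑_b β(b) χ(a+b)| ≤ η |A| ∑ |c_i||P_i|`; for all but `|F| binom(p,k) / p` of the
`k`-element sets `S` the same holds for all characters outside `Ex` and EVERY `A ⊆ S` with
`η |A| ≥ C (1 + k M p^(-1+ε))`.

(2) Power saving.  If every pattern has at least `p^ε` elements, then the same with `|A| ≥ p^ε M`
(inside random sets: `|A| ≥ p^ε (1 + k M / p)`), for all `B` which are disjoint unions of copies,
with the bound `p^(-δ) |A||B|`.

The second moment over the characters of the number of large values of `x ↦ ∑_{b ∈ B₀} χ(x+b)`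
is small, by orthogonality of characters and the number of zeros of polynomials; affine images do
not change the set of large values, up to an affine map.
-/

set_option autoImplicit false

namespace Pool.Agent.Results.MP_f6e9a2_nt.AffineCopies

open Finset

open Classical in
theorem result :
    (∀ ε : ℝ, 0 < ε → ε ≤ 1 → ∃ C : ℝ, 1 ≤ C ∧ ∃ p₀ : ℕ, ∀ (p : ℕ) [Fact p.Prime], p₀ ≤ p →
      ∀ (η M : ℝ) (F : Finset (Finset (ZMod p))), 0 < η → η ≤ 1 → 0 < M →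
        (∀ B₀ ∈ F, C * η ^ (-C) * Real.log p ≤ B₀.card) →
        ∃ Ex : Finset (DirichletCharacter ℂ p), (Ex.card : ℝ) ≤ F.card * (p : ℝ) ^ (1 + ε) / M ∧
          ((p : ℝ) ^ (1 / 2 + ε) ≤ M → ∀ χ ∈ Ex, χ = 1) ∧
          (∀ χ ∉ Ex, ∀ A : Finset (ZMod p), 2 * M ≤ η * A.card →
            ∀ (m : ℕ) (c : Fin m → ℂ) (P : Fin m → Finset (ZMod p)),
              (∀ i, ∃ B₀ ∈ F, ∃ u v : ZMod p, u ≠ 0 ∧ P i = B₀.image fun b => u * b + v) →
              ∑ a ∈ A, ‖∑ i, c i * ∑ b ∈ P i, χ (a + b)‖ ≤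
                η * (A.card * ∑ i, ‖c i‖ * (P i).card)) ∧
          ∀ k : ℕ, k ≤ p →
            (((((univ : Finset (ZMod p)).powersetCard k).filter fun S =>
              ∃ χ ∉ Ex, ∃ A : Finset (ZMod p), A ⊆ S ∧
                C * (1 + k * M * (p : ℝ) ^ (-1 + ε)) ≤ η * A.card ∧
                ∃ (m : ℕ) (c : Fin m → ℂ) (P : Fin m → Finset (ZMod p)),
                  (∀ i, ∃ B₀ ∈ F, ∃ u v : ZMod p, u ≠ 0 ∧ P i = B₀.image fun b => u * b + v) ∧
                  η * (A.card * ∑ i, ‖c i‖ * (P i).card) <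
                    ∑ a ∈ A, ‖∑ i, c i * ∑ b ∈ P i, χ (a + b)‖).card : ℕ) : ℝ) ≤
              F.card * (p.choose k : ℝ) / p) ∧
    (∀ ε : ℝ, 0 < ε → ε ≤ 1 → ∃ δ : ℝ, 0 < δ ∧ ∃ p₀ : ℕ, ∀ (p : ℕ) [Fact p.Prime], p₀ ≤ p →
      ∀ (M : ℝ) (F : Finset (Finset (ZMod p))), 0 < M → (∀ B₀ ∈ F, (p : ℝ) ^ ε ≤ B₀.card) →
        ∃ Ex : Finset (DirichletCharacter ℂ p), (Ex.card : ℝ) ≤ F.card * (p : ℝ) ^ (1 + ε) / M ∧
          ((p : ℝ) ^ (1 / 2 + ε) ≤ M → ∀ χ ∈ Ex, χ = 1) ∧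
          (∀ χ ∉ Ex, ∀ A B : Finset (ZMod p), (p : ℝ) ^ ε * M ≤ A.card →
            ∀ (m : ℕ) (P : Fin m → Finset (ZMod p)),
              (∀ i, ∃ B₀ ∈ F, ∃ u v : ZMod p, u ≠ 0 ∧ P i = B₀.image fun b => u * b + v) →
              (∀ i j, i ≠ j → Disjoint (P i) (P j)) → (∀ b, b ∈ B ↔ ∃ i, b ∈ P i) →
              ∑ a ∈ A, ‖∑ b ∈ B, χ (a + b)‖ ≤ (p : ℝ) ^ (-δ) * (A.card * B.card)) ∧
          ∀ k : ℕ, k ≤ p →
            (((((univ : Finset (ZMod p)).powersetCard k).filter fun S =>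
              ∃ χ ∉ Ex, ∃ A B : Finset (ZMod p), A ⊆ S ∧ (p : ℝ) ^ ε * (1 + k * M / p) ≤ A.card ∧
                ∃ (m : ℕ) (P : Fin m → Finset (ZMod p)),
                  (∀ i, ∃ B₀ ∈ F, ∃ u v : ZMod p, u ≠ 0 ∧ P i = B₀.image fun b => u * b + v) ∧
                  (∀ i j, i ≠ j → Disjoint (P i) (P j)) ∧ (∀ b, b ∈ B ↔ ∃ i, b ∈ P i) ∧
                  (p : ℝ) ^ (-δ) * (A.card * B.card) <
                    ∑ a ∈ A, ‖∑ b ∈ B, χ (a + b)‖).card : ℕ) : ℝ) ≤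
              F.card * (p.choose k : ℝ) / p) := by
  refine ⟨fun ε hε hε1 => ?_, fun ε hε hε1 => ?_⟩
  · obtain ⟨C, hC, p₀, -, h⟩ := Pool.Agent.X222.PR.copies ε hε hε1
    exact ⟨C, hC, p₀, fun p _ hp => h p hp⟩
  · obtain ⟨δ, hδ, p₀, -, h⟩ := Pool.Agent.X222.PR.copies_power_one ε hε hε1
    exact ⟨δ, hδ, p₀, fun p _ hp => h p hp⟩

end Pool.Agent.Results.MP_f6e9a2_nt.AffineCopies
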