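import Pool.Agent.H435R3.Paley.All

/-!
# The Paley graph conjecture for almost all dilations, with an exceptional set of size `p^(1/2+ε)`

For ALL sets `A`, `B` with at least `p^ε` elements and every nontrivial character `χ` modulo a large prime `p`, the
bound `|∑ χ(a + t b)| ≤ p^(-δ) |A| |B|` holds for all dilations `t ≠ 0` but at most `p^(1/2+ε)`.

The theorem is assembled from the starting files (`Pool.Agent.H435R3.Paley.Avg`, `Pool.Agent.H435R3.Paley.All`):
the quotients `a / t` are grouped together, Hoelder's inequality is used and the moments of `∑ χ(x + b)` are bounded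
with the theorem of Weil.
-/

set_option autoImplicit false

namespace Pool.Agent.Results.MP_f6e9a2_nt.AlmostAllDilations

/-- For every `ε > 0` there are `δ > 0` and `p₀` such that for every prime `p ≥ p₀`, every nontrivial character `χ`
modulo `p` and all sets `A`, `B` with `|A|, |B| ≥ p^ε` the inequality
`|∑_{a ∈ A} ∑_{b ∈ B} χ(a + t b)| ≤ p^(-δ) |A| |B|` holds for all `t ≠ 0` with at most `p^(1/2+ε)` exceptions. -/
theorem result : ∀ ε : ℝ, 0 < ε → ∃ δ : ℝ, 0 < δ ∧ ∃ p₀ : ℕ,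
    ∀ (p : ℕ) [Fact p.Prime], p₀ ≤ p → ∀ χ : DirichletCharacter ℂ p, χ ≠ 1 →
    ∀ A B : Finset (ZMod p), (p : ℝ) ^ ε ≤ A.card → (p : ℝ) ^ ε ≤ B.card →
      (({t : ZMod p | t ≠ 0 ∧ (p : ℝ) ^ (-δ) * (A.card * B.card) <
        ‖∑ a ∈ A, ∑ b ∈ B, χ (a + t * b)‖}.ncard : ℕ) : ℝ) ≤ (p : ℝ) ^ (1 / 2 + ε) := by
  classical
  intro ε hε
  obtain ⟨δ, hδ, h⟩ := Pool.Agent.H435R3.Paley.dilations ε hε
  obtain ⟨p₀, hp₀⟩ := h (fun r => 2 * r) (fun r => by positivity)
  refine ⟨δ, hδ, p₀, fun p _ hp χ hχ A B hA hB => ?_⟩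
  have h1 := hp₀ p hp χ (Pool.Agent.H435R3.Paley.good_all p χ hχ) A B hA hB
  refine le_trans (le_of_eq ?_) h1
  have e : ∀ (S : Set (ZMod p)) (F : Finset (ZMod p)), S = ↑F → (S.ncard : ℝ) = (F.card : ℝ) := by
    rintro S F rfl
    rw [Set.ncard_coe_finset]
  apply e
  ext t
  simp only [Set.mem_setOf_eq, Finset.coe_filter, Finset.mem_univ, true_and,
    Pool.Agent.H435R3.Paley.dsum]

end Pool.Agent.Results.MP_f6e9a2_nt.AlmostAllDilations
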