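import Pool.Agent.H435R3.Paley.All

/-!
# The Paley graph conjecture for a geometric progression and a set with few elements on such progressions

`B` is a geometric progression `c, c g, ..., c g^(N-1)` with `N ≥ p^ε` terms and arbitrary ratio `g`; `A` is any set with
at most `m` elements in every geometric progression `x, x g, ..., x g^(N-1)`, and `|A| N ≥ m p^(1/2+ε)`. Then the
conjectured power saving holds for every nontrivial character. (For instance: `|B| = N ≥ p^(1/4+ε)`, `|A| ≥ p^(1/4)` and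
`m` bounded.)

The theorem is assembled from the starting files (`Pool.Agent.H435R3.Paley.Inv`, `Pool.Agent.H435R3.Paley.All`): average
over the dilations by the powers of `g`, Hoelder's inequality and the theorem of Weil.
-/

set_option autoImplicit false

namespace Pool.Agent.Results.MP_f6e9a2_nt.GeometricProgressions

open Finset

open Classical in
/-- For every `ε > 0` there are `δ > 0` and `p₀` such that for every prime `p ≥ p₀`, every nontrivial character `χ`
modulo `p`, every `g ≠ 0` modulo `p`, every `c ≠ 0`, every `N ≤ ord g` with `N ≥ p^ε`, and every set `A` which contains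
at most `m` terms of each geometric progression `x, x g, ..., x g^(N-1)` the inequality
`|∑_{a ∈ A} ∑_{i < N} χ(a + c g^i)| ≤ p^(-δ) |A| N` holds if `|A| N ≥ m p^(1/2+ε)`. -/
theorem result : ∀ ε : ℝ, 0 < ε → ∃ δ : ℝ, 0 < δ ∧ ∃ p₀ : ℕ,
    ∀ (p : ℕ) [Fact p.Prime], p₀ ≤ p → ∀ χ : DirichletCharacter ℂ p, χ ≠ 1 →
    ∀ (g : (ZMod p)ˣ) (c : ZMod p) (N m : ℕ) (A : Finset (ZMod p)), c ≠ 0 → N ≤ orderOf g →
      (∀ x : ZMod p, ((range N).filter fun j => x * (g : ZMod p) ^ j ∈ A).card ≤ m) →
      (p : ℝ) ^ ε ≤ N → (m : ℝ) * (p : ℝ) ^ (1 / 2 + ε) ≤ A.card * N →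
      ‖∑ a ∈ A, ∑ i ∈ range N, χ (a + c * (g : ZMod p) ^ i)‖ ≤
        (p : ℝ) ^ (-δ) * (A.card * N) := by
  intro ε hε
  obtain ⟨δ, hδ, h⟩ := Pool.Agent.H435R3.Paley.progression ε hε
  obtain ⟨p₀, hp₀⟩ := h (fun r => 2 * r) (fun r => by positivity)
  exact ⟨δ, hδ, p₀, fun p _ hp χ hχ => hp₀ p hp χ (Pool.Agent.H435R3.Paley.good_all p χ hχ)⟩

end Pool.Agent.Results.MP_f6e9a2_nt.GeometricProgressions
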