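import Pool.Agent.X222.PR.Final

/-!
# The Paley graph conjecture inside random sets, and containers for the sets which violate it

(1) Containers.  For every `ε` and all `n` between `C log p` and `p` there are at most `p^(n+1)` sets
`L`, each with at most `p^(1/2+ε)` elements, such that every `A` for which
`∑_{a ∈ A} |∑_{b ∈ B} χ(a+b)| > η |A||B|` for SOME nontrivial `χ` and SOME `B` with `|B| ≥ n` has at
least `η |A| / 2` elements in one of the sets `L`, provided that `n ≥ C η^(-C) log p`.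

(2) Random hosts, at the logarithmic scale.  For all `k ≤ p` and all but a proportion `p^(-log p)`
of the `k`-element sets `S` modulo `p`: for every nontrivial `χ`, every `0 < η ≤ 1`, EVERY subset
`A` of `S` with `|A| ≥ C η^(-C) (log p + k p^(-1/2+ε))` and EVERY set `B` of residues with
`|B| ≥ C η^(-C) log p` the sum `∑_{a ∈ A} |∑_{b ∈ B} χ(a+b)|` is at most `η |A||B|`.

(3) In particular (power saving): all subsets `A` of `S` with `|A| ≥ p^ε max(1, k/√p)` and all `B`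
with `|B| ≥ p^ε`.

Outline: if the sum is large then it is large for a subset of `B` with `n` elements, because the
average over these subsets is at least as large; for such a subset the numbers `x` with a large sum
`∑ χ(x+b)` are few by Weil's bound for moments of order up to `log p`; these are the sets `L`.
A random set has few elements in each of them.
-/

set_option autoImplicit false

namespace Pool.Agent.Results.MP_f6e9a2_nt.RandomHosts

open Finset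

open Classical in
theorem result :
    (∀ ε : ℝ, 0 < ε → ε ≤ 1 → ∃ C : ℝ, 1 ≤ C ∧ ∃ p₀ : ℕ, ∀ (p : ℕ) [Fact p.Prime], p₀ ≤ p →
      ∀ n : ℕ, C * Real.log p ≤ n → n ≤ p →
        ∃ Lc : Finset (Finset (ZMod p)), Lc.card ≤ p ^ (n + 1) ∧
          (∀ L ∈ Lc, (L.card : ℝ) ≤ (p : ℝ) ^ (1 / 2 + ε)) ∧
          ∀ χ : DirichletCharacter ℂ p, χ ≠ 1 → ∀ (A B : Finset (ZMod p)) (η : ℝ),
            0 < η → η ≤ 1 → C * η ^ (-C) * Real.log p ≤ n → n ≤ B.card →
            η * (A.card * B.card) < ∑ a ∈ A, ‖∑ b ∈ B, χ (a + b)‖ →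
            ∃ L ∈ Lc, η * A.card / 2 ≤ ((A ∩ L).card : ℝ)) ∧
    (∀ ε : ℝ, 0 < ε → ε ≤ 1 → ∃ C : ℝ, 1 ≤ C ∧ ∃ p₀ : ℕ, ∀ (p : ℕ) [Fact p.Prime], p₀ ≤ p →
      ∀ k : ℕ, k ≤ p →
        (((((univ : Finset (ZMod p)).powersetCard k).filter fun S =>
          ∃ χ : DirichletCharacter ℂ p, χ ≠ 1 ∧ ∃ (A B : Finset (ZMod p)) (η : ℝ), A ⊆ S ∧
            0 < η ∧ η ≤ 1 ∧ C * η ^ (-C) * Real.log p ≤ B.card ∧
            C * η ^ (-C) * (Real.log p + k * (p : ℝ) ^ (-(1 / 2) + ε)) ≤ A.card ∧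
            η * (A.card * B.card) < ∑ a ∈ A, ‖∑ b ∈ B, χ (a + b)‖).card : ℕ) : ℝ) ≤
          (p : ℝ) ^ (-Real.log p) * (p.choose k : ℝ)) ∧
    (∀ ε : ℝ, 0 < ε → ∃ δ : ℝ, 0 < δ ∧ ∃ p₀ : ℕ, ∀ (p : ℕ) [Fact p.Prime], p₀ ≤ p →
      ∀ k : ℕ, k ≤ p →
        (((((univ : Finset (ZMod p)).powersetCard k).filter fun S =>
          ∃ χ : DirichletCharacter ℂ p, χ ≠ 1 ∧ ∃ A B : Finset (ZMod p), A ⊆ S ∧
            (p : ℝ) ^ ε ≤ B.card ∧ (p : ℝ) ^ ε * max 1 (k / Real.sqrt p) ≤ A.card ∧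
            (p : ℝ) ^ (-δ) * (A.card * B.card) < ‖∑ a ∈ A, ∑ b ∈ B, χ (a + b)‖).card : ℕ) : ℝ) ≤
          (p : ℝ) ^ (-Real.log p) * (p.choose k : ℝ)) := by
  refine ⟨fun ε hε hε1 => ?_, fun ε hε hε1 => ?_, fun ε hε => ?_⟩
  · obtain ⟨C, hC, p₀, hp₀3, h⟩ := Pool.Agent.X222.PR.containers ε hε hε1
    refine ⟨C, hC, p₀, fun p _ hp n hn hnp => ?_⟩
    obtain ⟨Lc, h1, h2, h3⟩ := h p hp n hnp hn
    refine ⟨Lc, h1, fun L hL => (h2 L hL).trans ?_, h3⟩
    refine Real.rpow_le_rpow_of_exponent_le ?_ (by linarith)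
    exact_mod_cast (by omega : 1 ≤ p)
  · obtain ⟨C, hC, p₀, -, h⟩ := Pool.Agent.X222.PR.random_hosts ε hε hε1
    exact ⟨C, hC, p₀, fun p _ hp k hk => h p hp k hk⟩
  · obtain ⟨δ, hδ, p₀, h⟩ := Pool.Agent.X222.PR.power ε hε
    refine ⟨δ, hδ, p₀, fun p _ hp k hk => le_trans ?_ (h p hp k hk)⟩
    refine Nat.cast_le.2 (card_le_card ?_)
    intro S hS
    obtain ⟨hSk, χ, hχ, A, B, hAS, hB, hA, hlarge⟩ := mem_filter.1 hS
    exact mem_filter.2 ⟨hSk, χ, hχ, A, B, hAS, hB, hA, lt_of_lt_of_le hlarge (norm_sum_le _ _)⟩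

end Pool.Agent.Results.MP_f6e9a2_nt.RandomHosts
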